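import Mathlib
import Pool.Agent.Helper38.DT.Defs

/-!
# Purely inseparable rational functions
-/

set_option autoImplicit false

namespace Pool.Agent.Helper31.DT

open Polynomial IntermediateField Pool.Agent.Helper93.RatODE Pool.Agent.Helper38.DT

section ratfunc

variable {E : Type} [Field E]

theorem IsRatD.G_ne_zero {F G : E[X]} {d : ℕ} (hd : 2 ≤ d) (h : IsRatD F G d) : G ≠ 0 := by
  rintro rfl
  have h1 : IsUnit F := isCoprime_zero_right.1 h.cop
  have h2 := natDegree_eq_zero_of_isUnit h1
  rcases h.top with h3 | h3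
  · exact h3 (coeff_eq_zero_of_natDegree_lt (by omega))
  · simp at h3

theorem IsRatD.swap {F G : E[X]} {d : ℕ} (h : IsRatD F G d) : IsRatD G F d :=
  ⟨h.cop.symm, h.degG, h.degF, h.top.symm⟩

/-- the rational function `F / G` -/
noncomputable def rf (F G : E[X]) : RatFunc E := algebraMap E[X] (RatFunc E) F / algebraMap E[X] (RatFunc E) G

theorem rf_mul {F G : E[X]} (hG : G ≠ 0) :
    rf F G * algebraMap E[X] (RatFunc E) G = algebraMap E[X] (RatFunc E) F := by
  have : algebraMap E[X] (RatFunc E) G ≠ 0 := by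
    simpa using hG
  unfold rf
  field_simp

theorem rf_ne_C {F G : E[X]} {d : ℕ} (hd : 2 ≤ d) (h : IsRatD F G d) :
    ¬ ∃ c : E, rf F G = RatFunc.C c := by
  rintro ⟨c, hc⟩
  have hG := IsRatD.G_ne_zero hd h
  have h1 := rf_mul (F := F) hG
  rw [hc] at h1
  have h2 : C c * G = F := by
    apply RatFunc.algebraMap_injective (K := E)
    rw [map_mul, ← h1]
    congr 1
  have h3 : IsUnit G := by
    rw [← h2] at h
    exact isCoprime_self.1 (h.cop.of_mul_left_right)
  have h4 := natDegree_eq_zero_of_isUnit h3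
  rcases h.top with h5 | h5
  · rw [← h2] at h5
    apply h5
    rw [coeff_C_mul, coeff_eq_zero_of_natDegree_lt (by omega : G.natDegree < d), mul_zero]
  · exact h5 (coeff_eq_zero_of_natDegree_lt (by omega))

/-- If some power `X ^ (q ^ n)` with `q` the exponential characteristic is a rational function of
`F / G` then `F / G` is purely inseparable. -/
theorem pinsep_of_pow_mem (F G : E[X]) (d : ℕ) (hd : 2 ≤ d) (h : IsRatD F G d) (n : ℕ)
    (hn : (RatFunc.X : RatFunc E) ^ (ringExpChar E) ^ n ∈ E⟮rf F G⟯) : PInsep F G d := by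
  have hG := IsRatD.G_ne_zero hd h
  have hF : F ≠ 0 := IsRatD.G_ne_zero hd (IsRatD.swap h)
  have hC := rf_ne_C hd h
  set f := rf F G with hf
  haveI : ExpChar E (ringExpChar E) := ringExpChar.expChar E
  haveI : ExpChar E⟮f⟯ (ringExpChar E) :=
    expChar_of_injective_algebraMap (algebraMap E E⟮f⟯).injective _
  have h1 : (minpoly E⟮f⟯ (RatFunc.X : RatFunc E)).natSepDegree = 1 := by
    rw [minpoly.natSepDegree_eq_one_iff_pow_mem (ringExpChar E)]
    exact ⟨n, ⟨⟨_, hn⟩, rfl⟩⟩
  rw [minpoly.natSepDegree_eq_one_iff_eq_X_pow_sub_C (ringExpChar E)] at h1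
  obtain ⟨m, y, hmin⟩ := h1
  -- degree of the minimal polynomial
  have hdeg : (minpoly E⟮f⟯ (RatFunc.X : RatFunc E)).natDegree =
      max f.num.natDegree f.denom.natDegree := by
    rw [← minpoly.eq_of_irreducible (f.irreducible_minpolyX hC) f.minpolyX_aeval_X, mul_comm,
      natDegree_C_mul (inv_ne_zero (leadingCoeff_ne_zero.mpr fun H =>
        hC ((RatFunc.minpolyX_eq_zero_iff f).mp H))), f.natDegree_minpolyX]
  have hf0 : f ≠ 0 := by
    intro h0
    exact hC ⟨0, by rw [h0, map_zero]⟩
  have hnum : f.num ≠ 0 := RatFunc.num_ne_zero hf0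
  have hden : f.denom ≠ 0 := f.denom_ne_zero
  have hcross : F * f.denom = G * f.num := by
    apply RatFunc.algebraMap_injective (K := E)
    rw [map_mul, map_mul, ← rf_mul (F := F) hG, ← hf]
    have h2 : f * algebraMap E[X] (RatFunc E) f.denom = algebraMap E[X] (RatFunc E) f.num := by
      have h3 : algebraMap E[X] (RatFunc E) f.denom ≠ 0 := by simpa using hden
      nth_rw 1 [← f.num_div_denom]
      field_simp
    rw [← h2]
    ring
  have hFd : F ∣ f.num := by
    apply h.cop.dvd_of_dvd_mul_left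
    rw [← hcross]
    exact dvd_mul_right _ _
  have hGd : G ∣ f.denom := by
    apply h.cop.symm.dvd_of_dvd_mul_left
    rw [hcross]
    exact dvd_mul_right _ _
  have hdD : d ≤ max f.num.natDegree f.denom.natDegree := by
    rcases h.top with h3 | h3
    · have h4 := le_natDegree_of_ne_zero h3
      exact h4.trans ((natDegree_le_of_dvd hFd hnum).trans (le_max_left _ _))
    · have h4 := le_natDegree_of_ne_zero h3
      exact h4.trans ((natDegree_le_of_dvd hGd hden).trans (le_max_right _ _))
  -- the polynomial F - f G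
  let g : E⟮f⟯ := ⟨f, mem_adjoin_simple_self E f⟩
  let P : E⟮f⟯[X] := F.map (algebraMap E E⟮f⟯) - C g * G.map (algebraMap E E⟮f⟯)
  have hPc : ∀ i, P.coeff i = algebraMap E E⟮f⟯ (F.coeff i) - g * algebraMap E E⟮f⟯ (G.coeff i) := by
    intro i
    simp [P, coeff_map]
  have hz : ∀ i, P.coeff i = 0 → F.coeff i = 0 ∧ G.coeff i = 0 := by
    intro i hi
    rw [hPc] at hi
    have h5 : RatFunc.C (F.coeff i) = f * RatFunc.C (G.coeff i) := by
      have := congrArg (fun x : E⟮f⟯ => (x : RatFunc E)) hi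
      simp only [AddSubgroupClass.coe_sub, MulMemClass.coe_mul, ZeroMemClass.coe_zero] at this
      exact sub_eq_zero.1 this
    by_cases h6 : G.coeff i = 0
    · refine ⟨?_, h6⟩
      rw [h6, map_zero, mul_zero] at h5
      exact (map_eq_zero _).1 h5
    · exfalso
      apply hC
      refine ⟨F.coeff i / G.coeff i, ?_⟩
      have h7 : RatFunc.C (G.coeff i) ≠ 0 := by
        rwa [Ne, map_eq_zero]
      rw [map_div₀, h5, mul_div_cancel_right₀ _ h7]
  have hP0 : P ≠ 0 := by
    intro h0
    rcases h.top with h3 | h3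
    · exact h3 (hz d (by rw [h0, coeff_zero])).1
    · exact h3 (hz d (by rw [h0, coeff_zero])).2
  have hPdeg : P.natDegree ≤ d := by
    refine (natDegree_sub_le _ _).trans (max_le ?_ ?_)
    · exact natDegree_map_le.trans h.degF
    · refine (natDegree_C_mul_le _ _).trans ?_
      exact natDegree_map_le.trans h.degG
  have hroot : aeval (RatFunc.X : RatFunc E) P = 0 := by
    simp only [P, map_sub, map_mul, aeval_C, aeval_map_algebraMap]
    have h8 : ∀ Q : E[X], aeval (RatFunc.X : RatFunc E) Q = algebraMap E[X] (RatFunc E) Q := by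
      intro Q
      rw [RatFunc.aeval_X_left_eq_algebraMap]
    rw [h8, h8, ← rf_mul (F := F) hG]
    exact sub_self _
  obtain ⟨R, hR⟩ := minpoly.dvd E⟮f⟯ (RatFunc.X : RatFunc E) hroot
  have hR0 : R ≠ 0 := by
    rintro rfl
    rw [mul_zero] at hR
    exact hP0 hR
  have hM0 : minpoly E⟮f⟯ (RatFunc.X : RatFunc E) ≠ 0 := by
    intro h0
    rw [h0, zero_mul] at hR
    exact hP0 hR
  have hRd : R.natDegree = 0 ∧ (minpoly E⟮f⟯ (RatFunc.X : RatFunc E)).natDegree = d := by
    have h9 := natDegree_mul hM0 hR0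
    rw [← hR, hdeg] at h9
    omega
  rw [hmin, natDegree_X_pow_sub_C] at hRd
  obtain ⟨hR1, hdm⟩ := hRd
  rw [eq_C_of_natDegree_eq_zero hR1, hmin, hdm] at hR
  have hmid : ∀ i, i ≠ 0 → i ≠ d → F.coeff i = 0 ∧ G.coeff i = 0 := by
    intro i hi0 hid
    apply hz
    rw [hR, coeff_mul_C, coeff_sub, coeff_X_pow, coeff_C, if_neg hid, if_neg hi0]
    ring
  refine ⟨⟨m, hdm.symm⟩, F.coeff d, F.coeff 0, G.coeff d, G.coeff 0, ?_, ?_⟩
  · ext i
    rw [coeff_add, coeff_C_mul, coeff_X_pow, coeff_C]
    by_cases hi0 : i = 0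
    · subst hi0
      rw [if_neg (by omega), if_pos rfl]
      ring
    · rw [if_neg hi0]
      by_cases hid : i = d
      · subst hid
        rw [if_pos rfl]
        ring
      · rw [if_neg hid, (hmid i hi0 hid).1]
        ring
  · ext i
    rw [coeff_add, coeff_C_mul, coeff_X_pow, coeff_C]
    by_cases hi0 : i = 0
    · subst hi0
      rw [if_neg (by omega), if_pos rfl]
      ring
    · rw [if_neg hi0]
      by_cases hid : i = d
      · subst hid
        rw [if_pos rfl]
        ring
      · rw [if_neg hid, (hmid i hi0 hid).2]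
        ring

end ratfunc

end Pool.Agent.Helper31.DT
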