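import Pool.Agent.Helper31.DT.PIns
import Pool.Agent.Helper31.RRK.Frob

/-!
# The separable degree of an endomorphism lying over an iterate of `F / G` (module DT2b)
-/

set_option autoImplicit false
set_option linter.style.haveILetI false

namespace Pool.Agent.Helper31.DT

open Polynomial IntermediateField Pool.Agent.Helper93.RatODE Pool.Agent.Helper38.DT
  Pool.Agent.Helper16

section transfer

variable {E M : Type} [Field E] [Field M] [Algebra E M]

/-- the embedding of the rational function field given by a transcendental element -/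
noncomputable def emb (z : M) (hz : Transcendental E z) : RatFunc E →ₐ[E] M :=
  IsFractionRing.liftAlgHom (A := E[X]) (g := aeval z) (transcendental_iff_injective.1 hz)

theorem emb_algebraMap (z : M) (hz : Transcendental E z) (P : E[X]) :
    emb z hz (algebraMap E[X] (RatFunc E) P) = aeval z P := by
  unfold emb
  rw [IsFractionRing.liftAlgHom_apply, IsFractionRing.lift_algebraMap]
  rfl

theorem emb_X (z : M) (hz : Transcendental E z) : emb z hz RatFunc.X = z := by
  rw [← RatFunc.algebraMap_X, emb_algebraMap, aeval_X]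

theorem emb_rf (z : M) (hz : Transcendental E z) (F G : E[X]) :
    emb z hz (rf F G) = aeval z F / aeval z G := by
  unfold rf
  rw [map_div₀, emb_algebraMap, emb_algebraMap]

theorem pinsep_of_pow_mem' (z : M) (hz : Transcendental E z) (F G : E[X]) (d : ℕ) (hd : 2 ≤ d)
    (h : IsRatD F G d) (n : ℕ)
    (hn : z ^ (ringExpChar E) ^ n ∈ E⟮aeval z F / aeval z G⟯) : PInsep F G d := by
  apply pinsep_of_pow_mem F G d hd h n
  have h1 : (E⟮rf F G⟯).map (emb z hz) = E⟮aeval z F / aeval z G⟯ := by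
    rw [IntermediateField.adjoin_map, Set.image_singleton, emb_rf]
  rw [← h1] at hn
  obtain ⟨y, hy, hy2⟩ := hn
  have h2 : emb z hz (RatFunc.X ^ (ringExpChar E) ^ n) = z ^ (ringExpChar E) ^ n := by
    rw [map_pow, emb_X]
  have h3 : (RatFunc.X : RatFunc E) ^ (ringExpChar E) ^ n = y := by
    apply (emb z hz).injective
    exact h2.trans hy2.symm
  rw [h3]
  exact hy

theorem aeval_ne_zero {z : M} (hz : Transcendental E z) {P : E[X]} (hP : P ≠ 0) :
    aeval z P ≠ 0 := by
  intro h
  exact hP ((transcendental_iff.1 hz) P h)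

theorem iter_snd_ne_zero {F G : E[X]} {d : ℕ} (hd : 2 ≤ d) (h : IsRatD F G d) (m : ℕ) :
    (iter F G d m).2 ≠ 0 := by
  rcases Nat.eq_zero_or_pos m with rfl | hm
  · simp [iter]
  · have h1 : IsRatD (iter F G d m).1 (iter F G d m).2 (d ^ m) :=
      ⟨iter_isCoprime h.cop h.degF h.degG h.top m, (iter_natDegree (P := F) (Q := G) (d := d) m).1,
        (iter_natDegree (P := F) (Q := G) (d := d) m).2, iter_coeff h.cop h.degF h.degG h.top m⟩
    apply IsRatD.G_ne_zero _ h1
    calc 2 ≤ d := hd
      _ = d ^ 1 := (pow_one d).symm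
      _ ≤ d ^ m := Nat.pow_le_pow_right (by omega) hm

/-- the iterates of `F / G` at `z` are rational functions of `F / G` at `z` -/
theorem iter_mem {F G : E[X]} {d : ℕ} (hd : 2 ≤ d) (h : IsRatD F G d) {z : M}
    (hz : Transcendental E z) (m : ℕ) :
    aeval z (iter F G d (m + 1)).1 / aeval z (iter F G d (m + 1)).2 ∈
      E⟮aeval z F / aeval z G⟯ := by
  induction m with
  | zero =>
    have h1 : (iter F G d 1).1 = F ∧ (iter F G d 1).2 = G := by
      constructor
      · change hev F d (X : E[X]) 1 = F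
        unfold hev
        simp only [one_pow, mul_one, algebraMap_eq]
        exact (as_sum_range_C_mul_X_pow' (n := d + 1) F (by have := h.degF; omega)).symm
      · change hev G d (X : E[X]) 1 = G
        unfold hev
        simp only [one_pow, mul_one, algebraMap_eq]
        exact (as_sum_range_C_mul_X_pow' (n := d + 1) G (by have := h.degG; omega)).symm
    rw [zero_add, h1.1, h1.2]
    exact mem_adjoin_simple_self E _
  | succ m ih =>
    set U := (iter F G d (m + 1)).1 with hU
    set W := (iter F G d (m + 1)).2 with hW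
    have hW0 : aeval z W ≠ 0 := aeval_ne_zero hz (iter_snd_ne_zero hd h (m + 1))
    have h1 : aeval z (iter F G d (m + 1 + 1)).1 = hev F d (aeval z U) (aeval z W) := by
      change aeval z (hev F d U W) = _
      rw [hev_map]
    have h2 : aeval z (iter F G d (m + 1 + 1)).2 = hev G d (aeval z U) (aeval z W) := by
      change aeval z (hev G d U W) = _
      rw [hev_map]
    rw [h1, h2, hev_eq F d h.degF _ _ hW0, hev_eq G d h.degG _ _ hW0,
      mul_div_mul_left _ _ (pow_ne_zero _ hW0)]
    have h3 : ∀ P : E[X], aeval (aeval z U / aeval z W) P ∈ E⟮aeval z F / aeval z G⟯ := by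
      intro P
      have h4 := Polynomial.aeval_algebraMap_apply M
        (⟨_, ih⟩ : E⟮aeval z F / aeval z G⟯) P
      change aeval (aeval z U / aeval z W) P = _ at h4
      rw [h4]
      exact (aeval _ P : E⟮aeval z F / aeval z G⟯).2
    exact div_mem (h3 F) (h3 G)

end transfer

section degree

theorem finSepDegree_eq_of_equiv_equiv {F K F' K' : Type} [Field F] [Field K] [Field F'] [Field K']
    [Algebra F K] [Algebra F' K'] [Algebra.IsAlgebraic F' K'] (i : F ≃+* F') (j : K ≃+* K')
    (h : ∀ x, j (algebraMap F K x) = algebraMap F' K' (i x)) :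
    Field.finSepDegree F K = Field.finSepDegree F' K' := by
  letI : Algebra F F' := (i : F →+* F').toAlgebra
  letI : Algebra F K' := ((algebraMap F' K').comp (i : F →+* F')).toAlgebra
  haveI : IsScalarTower F F' K' := IsScalarTower.of_algebraMap_eq (fun _ => rfl)
  have h1 := Field.finSepDegree_mul_finSepDegree_of_isAlgebraic F F' K'
  have h2 : Field.finSepDegree F F' = 1 := by
    rw [← Field.finSepDegree_eq_of_equiv F F F' (AlgEquiv.ofRingEquiv (f := i) (fun _ => rfl)),
      Field.finSepDegree_self]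
  have h3 : Field.finSepDegree F K = Field.finSepDegree F K' :=
    Field.finSepDegree_eq_of_equiv F K K' (AlgEquiv.ofRingEquiv (f := j) (fun x => h x))
  rw [h2, one_mul] at h1
  rw [h3, h1]

/-- **DT2b**: the separable degree of an endomorphism lying over `(F / G)^r`. -/
theorem dt2b {E M : Type} [Field E] [IsAlgClosed E] [Field M] [Algebra E M]
    (hM : IsFunctionField E M) (φ : M →ₐ[E] M) (z : M) (hz : Transcendental E z) (F G : E[X])
    (d : ℕ) (hd : 2 ≤ d) (hFG : IsRatD F G d) (hins : ¬ PInsep F G d) (r : ℕ) (hr : 1 ≤ r)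
    (hφ : φ z * aeval z (iter F G d r).2 = aeval z (iter F G d r).1) :
    2 ≤ Field.finSepDegree φ.fieldRange M := by
  obtain ⟨m, rfl⟩ : ∃ m, r = m + 1 := ⟨r - 1, by omega⟩
  have hW0 : aeval z (iter F G d (m + 1)).2 ≠ 0 :=
    aeval_ne_zero hz (iter_snd_ne_zero hd hFG (m + 1))
  have hφz : φ z = aeval z (iter F G d (m + 1)).1 / aeval z (iter F G d (m + 1)).2 :=
    (eq_div_iff hW0).2 hφ
  have hmem : φ z ∈ E⟮aeval z F / aeval z G⟯ := by
    rw [hφz]
    exact iter_mem hd hFG hz m
  have hzt : Transcendental E (φ z) := by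
    intro h
    exact hz ((isAlgebraic_algHom_iff φ φ.injective).1 h)
  have hle1 : E⟮φ z⟯ ≤ E⟮aeval z F / aeval z G⟯ := by
    rwa [adjoin_simple_le_iff]
  have hle2 : E⟮aeval z F / aeval z G⟯ ≤ E⟮z⟯ := by
    rw [adjoin_simple_le_iff]
    have h3 : ∀ P : E[X], aeval z P ∈ E⟮z⟯ := by
      intro P
      have h4 := Polynomial.aeval_algebraMap_apply M
        (⟨z, mem_adjoin_simple_self E z⟩ : E⟮z⟯) P
      change aeval z P = _ at h4
      rw [h4]
      exact (aeval _ P : E⟮z⟯).2
    exact div_mem (h3 F) (h3 G)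
  have hle : E⟮φ z⟯ ≤ E⟮z⟯ := hle1.trans hle2
  have hleR : E⟮φ z⟯ ≤ φ.fieldRange := by
    rw [adjoin_simple_le_iff]
    exact ⟨z, rfl⟩
  haveI := Pool.Agent.Helper45.S4.finiteDimensional_adjoin hM z hz
  haveI := Pool.Agent.Helper45.S4.finiteDimensional_adjoin hM (φ z) hzt
  haveI := Pool.Agent.Helper31.RRK.finiteDimensional_fieldRange hM hM φ
  letI : Algebra E⟮φ z⟯ E⟮z⟯ := (IntermediateField.inclusion hle).toRingHom.toAlgebra
  haveI : IsScalarTower E⟮φ z⟯ E⟮z⟯ M := IsScalarTower.of_algebraMap_eq (fun _ => rfl)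
  letI : Algebra E⟮φ z⟯ φ.fieldRange := (IntermediateField.inclusion hleR).toRingHom.toAlgebra
  haveI : IsScalarTower E⟮φ z⟯ φ.fieldRange M := IsScalarTower.of_algebraMap_eq (fun _ => rfl)
  haveI : FiniteDimensional E⟮φ z⟯ E⟮z⟯ := FiniteDimensional.left _ _ M
  haveI : FiniteDimensional E⟮φ z⟯ φ.fieldRange := FiniteDimensional.left _ _ M
  have h1 := Field.finSepDegree_mul_finSepDegree_of_isAlgebraic E⟮φ z⟯ E⟮z⟯ M
  have h2 := Field.finSepDegree_mul_finSepDegree_of_isAlgebraic E⟮φ z⟯ φ.fieldRange M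
  have hmap : (E⟮z⟯).map φ = E⟮φ z⟯ := by
    rw [IntermediateField.adjoin_map, Set.image_singleton]
  let i : E⟮z⟯ ≃+* E⟮φ z⟯ :=
    ((IntermediateField.equivMap E⟮z⟯ φ).trans (IntermediateField.equivOfEq hmap)).toRingEquiv
  have h3 : Field.finSepDegree E⟮z⟯ M = Field.finSepDegree E⟮φ z⟯ φ.fieldRange := by
    apply finSepDegree_eq_of_equiv_equiv i (AlgEquiv.ofInjectiveField φ).toRingEquiv
    intro x
    rfl
  have h4 : 0 < Field.finSepDegree E⟮z⟯ M := Nat.pos_of_ne_zero (NeZero.ne _)
  rw [← h3] at h2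
  have h5 : Field.finSepDegree φ.fieldRange M = Field.finSepDegree E⟮φ z⟯ E⟮z⟯ := by
    apply Nat.eq_of_mul_eq_mul_left h4
    rw [h2, ← h1, mul_comm]
  rw [h5]
  have h6 : 0 < Field.finSepDegree E⟮φ z⟯ E⟮z⟯ := Nat.pos_of_ne_zero (NeZero.ne _)
  by_contra hcon
  have h7 : Field.finSepDegree E⟮φ z⟯ E⟮z⟯ = 1 := by omega
  rw [← isPurelyInseparable_iff_finSepDegree_eq_one] at h7
  haveI : ExpChar E (ringExpChar E) := ringExpChar.expChar E
  haveI : ExpChar E⟮φ z⟯ (ringExpChar E) :=
    expChar_of_injective_algebraMap (algebraMap E E⟮φ z⟯).injective _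
  obtain ⟨n, y, hy⟩ := h7.pow_mem E⟮φ z⟯ (ringExpChar E)
    (⟨z, mem_adjoin_simple_self E z⟩ : E⟮z⟯)
  have h8 : z ^ (ringExpChar E) ^ n = (y : M) := by
    have := congrArg (fun x : E⟮z⟯ => (x : M)) hy
    exact this.symm
  apply hins
  apply pinsep_of_pow_mem' z hz F G d hd hFG n
  rw [h8]
  exact hle1 y.2

end degree

end Pool.Agent.Helper31.DT
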